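import Pool.Agent.helper56.SG.SpecG

/-!
# Project sg: FX2, the fixed function of one operator is fixed by all operators
-/

set_option autoImplicit false

open MeasureTheory Set Metric Filter Topology
open scoped ENNReal NNReal ComplexConjugate
open Pool.Agent.SG

noncomputable section

namespace Pool.Agent.SGG

theorem FX2 (hKLI : KLI_stmt) (hKCT : KCT_stmt) (hKCM : KCM_stmt) (hEQI : EQI_stmt)
    (hANT : ANT_stmt) (hPOS : POS_stmt) : FX2_stmt := by
  intro Γ _ A hD hC χ r hPar φ hφ t δ ht0 ht1 hδ0 hδ1 hDoe W hW hE hfix s hs0 hs1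
  obtain ⟨e1, -, e3⟩ := hEQI Γ A
  set v : ℂ → ℝ := fun z => KK s W z - W z with hv
  have hKW : CB (KK s W) := hKCT s hs0 hs1 W hW
  have hvc : CB v := ContinuousOn.sub hKW hW
  have hKE : Equi A φ (KK s W) := e1 φ W s hs0 hs1 hW hE
  have hvi : Invt A v := by
    intro γ z hz
    show KK s W (A.act γ z) - W (A.act γ z) = KK s W z - W z
    rw [hKE γ z hz, hE γ z hz]
    ring
  have hKv : ∀ x ∈ ball (0 : ℂ) 1, KK t v x = v x := by
    intro x hx
    have h1 : KK t v x = KK t (KK s W) x - KK t W x :=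
      ((hKLI t ht0 ht1 x hx).2.1 (KK s W) W hKW hW).2.1
    have h2 : KK s (KK t W) x = KK s W x :=
      ((hKLI s hs0 hs1 x hx).2.1 (KK t W) W (hKCT t ht0 ht1 W hW) hW).2.2.2 hfix
    rw [h1, hfix x hx, ← hKCM s t hs0 hs1 ht0 ht1 W hW x hx, h2]
  obtain ⟨M, -, hM⟩ := e3 hC v hvc hvi
  have hn : ∀ n : ℕ, ∀ x ∈ ball (0 : ℂ) 1, ∀ y ∈ ball (0 : ℂ) 1, v x - v y ≤ (1 - δ) ^ n * M := by
    intro n
    induction n with
    | zero =>
      intro x hx y hy
      rw [pow_zero, one_mul]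
      exact hM x hx y hy
    | succ n ih =>
      intro x hx y hy
      have h1 := hDoe v hvc hvi ((1 - δ) ^ n * M) ih x hx y hy
      rw [hKv x hx, hKv y hy] at h1
      refine h1.trans (le_of_eq ?_)
      ring
  have hlim : Tendsto (fun n : ℕ => (1 - δ) ^ n * M) atTop (𝓝 0) := by
    have h1 := (tendsto_pow_atTop_nhds_zero_of_lt_one (r := 1 - δ) (by linarith)
      (by linarith)).mul_const M
    rwa [zero_mul] at h1
  have hle : ∀ x ∈ ball (0 : ℂ) 1, ∀ y ∈ ball (0 : ℂ) 1, v x ≤ v y := by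
    intro x hx y hy
    have h1 := ge_of_tendsto' hlim (fun n => hn n x hx y hy)
    linarith
  intro x hx
  obtain ⟨⟨x1, hx1, h1⟩, ⟨y1, hy1, h2⟩⟩ := hPOS Γ A χ r hPar v hvc
    (hANT Γ A hD χ r hPar φ hφ W hW hE s hs0 hs1)
  have h3 := hle x hx x1 hx1
  have h4 := hle y1 hy1 x hx
  have h5 : v x = 0 := le_antisymm (by linarith) (by linarith)
  exact sub_eq_zero.1 h5

end Pool.Agent.SGG
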