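import Pool.Agent.helper68.SG.SpecK

/-!
# Project sg: K10, vanishing moments
-/

set_option autoImplicit false

open MeasureTheory Set Metric Filter Topology
open scoped ENNReal NNReal ComplexConjugate

namespace Pool.Agent.SG

theorem K10_poly {ι : Type} (S : Finset ι) (w : ι → ℝ) (ψ : ι → ℂ)
    (h : ∀ k : ℕ, 1 ≤ k → ∑ s ∈ S, (w s : ℂ) * ψ s ^ k = 0) (p : Polynomial ℂ) :
    ∑ s ∈ S, (w s : ℂ) * p.eval (ψ s) = p.eval 0 * ∑ s ∈ S, (w s : ℂ) := by
  induction p using Polynomial.induction_on' with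
  | add p q hp hq =>
    rw [Polynomial.eval_add, add_mul, ← hp, ← hq, ← Finset.sum_add_distrib]
    refine Finset.sum_congr rfl fun s _ => ?_
    rw [Polynomial.eval_add, mul_add]
  | monomial n a =>
    rw [Polynomial.eval_monomial]
    have h1 : ∑ s ∈ S, (w s : ℂ) * (Polynomial.monomial n a).eval (ψ s) =
        a * ∑ s ∈ S, (w s : ℂ) * ψ s ^ n := by
      rw [Finset.mul_sum]
      refine Finset.sum_congr rfl fun s _ => ?_
      rw [Polynomial.eval_monomial]
      ring
    rw [h1]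
    rcases Nat.eq_zero_or_pos n with hn | hn
    · subst hn
      simp
    · rw [h n hn, zero_pow hn.ne']
      ring

theorem K10 : K10_stmt := by
  classical
  intro ι S w ψ hw h
  set V : Finset ℂ := (S.image ψ).filter fun v => v ≠ 0 with hV
  have h1 := K10_poly S w ψ h (∏ v ∈ V, (Polynomial.X - Polynomial.C v))
  have h0 : (∏ v ∈ V, (Polynomial.X - Polynomial.C v)).eval 0 ≠ 0 := by
    rw [Polynomial.eval_prod, Finset.prod_ne_zero_iff]
    intro v hv
    rw [hV, Finset.mem_filter] at hv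
    rw [Polynomial.eval_sub, Polynomial.eval_X, Polynomial.eval_C, zero_sub]
    exact neg_ne_zero.2 hv.2
  have h2 : ∑ s ∈ S, (w s : ℂ) * (∏ v ∈ V, (Polynomial.X - Polynomial.C v)).eval (ψ s) =
      (∏ v ∈ V, (Polynomial.X - Polynomial.C v)).eval 0 *
        ∑ s ∈ S.filter (fun s => ψ s = 0), (w s : ℂ) := by
    rw [Finset.mul_sum, Finset.sum_filter]
    refine Finset.sum_congr rfl fun s hs => ?_
    by_cases hψ : ψ s = 0
    · rw [if_pos hψ, hψ, mul_comm]
    · rw [if_neg hψ]
      have h3 : (∏ v ∈ V, (Polynomial.X - Polynomial.C v)).eval (ψ s) = 0 := by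
        rw [Polynomial.eval_prod]
        refine Finset.prod_eq_zero (i := ψ s) ?_ ?_
        · rw [hV, Finset.mem_filter]
          exact ⟨Finset.mem_image_of_mem ψ hs, hψ⟩
        · rw [Polynomial.eval_sub, Polynomial.eval_X, Polynomial.eval_C, sub_self]
      rw [h3, mul_zero]
  rw [h2] at h1
  have h3 := mul_left_cancel₀ h0 h1
  have h4 : ∑ s ∈ S.filter (fun s => ψ s = 0), w s = ∑ s ∈ S, w s := by
    exact_mod_cast h3
  have h5 := Finset.sum_filter_add_sum_filter_not S (fun s => ψ s = 0) w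
  have h6 : ∑ s ∈ S.filter (fun s => ¬ ψ s = 0), w s = 0 := by linarith
  intro s hs
  by_contra hne
  have h7 := (Finset.sum_eq_zero_iff_of_nonneg (fun i hi =>
    (hw i (Finset.mem_filter.1 hi).1).le)).1 h6 s (Finset.mem_filter.2 ⟨hs, hne⟩)
  exact (hw s hs).ne' h7

end Pool.Agent.SG
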