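import Pool.Agent.helper68.SG.SpecT

/-!
# Project sg: T05, surface groups of genus at least 2 are not abelian
-/

set_option autoImplicit false

namespace Pool.Agent.SG

theorem T05 (h6 : F06_stmt) : T05_stmt := by
  intro g hg
  by_contra hna
  apply h6 g hg
  have hc : ∀ x y : SurfaceGroup g, x * y = y * x := by
    intro x y
    by_contra h
    exact hna ⟨x, y, h⟩
  exact Group.isSolvable_of_comm hc

end Pool.Agent.SG
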